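import Pool.Agent.Helper17.SA.St2

/-!
# Module ISO of project SA: invariance under isomorphisms
-/

set_option autoImplicit false

open scoped Pointwise

namespace Pool.Agent.Helper64.SA

open Equiv Pool.Agent.Helper17.SA

/-- Transport of a Sylow subgroup along the inverse of an isomorphism. -/
noncomputable def pull {G H : Type} [Group G] [Group H] [Finite H] (e : G ≃* H) (q : ℕ)
    [Fact q.Prime] (P : Sylow q H) : Sylow q G :=
  P.mapSurjective (f := (e.symm : H →* G)) e.symm.surjective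

theorem mem_pull {G H : Type} [Group G] [Group H] [Finite H] (e : G ≃* H) (q : ℕ)
    [Fact q.Prime] (P : Sylow q H) (x : G) :
    x ∈ (pull e q P : Subgroup G) ↔ e x ∈ (P : Subgroup H) := by
  unfold pull
  rw [Sylow.coe_mapSurjective]
  constructor
  · rintro ⟨r, hr, hx⟩
    have : e x = r := by
      rw [← hx]
      exact e.apply_symm_apply r
    rw [this]
    exact hr
  · intro h
    exact ⟨e x, h, e.symm_apply_apply x⟩

theorem mem_iInf_iff {G H : Type} [Group G] [Group H] [Finite G] [Finite H] (e : G ≃* H) (q : ℕ)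
    [Fact q.Prime] (x : G) :
    x ∈ (⨅ R : Sylow q G, (R : Subgroup G)) ↔ e x ∈ (⨅ R : Sylow q H, (R : Subgroup H)) := by
  rw [Subgroup.mem_iInf, Subgroup.mem_iInf]
  constructor
  · intro h R
    exact (mem_pull e q R x).1 (h (pull e q R))
  · intro h R
    have h1 := h (pull e.symm q R)
    rw [mem_pull] at h1
    simpa using h1

theorem mem_conj {G : Type} [Group G] (x y : G) (S : Subgroup G) :
    y ∈ MulAut.conj x⁻¹ • S ↔ x * y * x⁻¹ ∈ S := by
  rw [Subgroup.mem_pointwise_smul_iff_inv_smul_mem]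
  have : (MulAut.conj x⁻¹)⁻¹ • y = x * y * x⁻¹ := by
    rw [← map_inv, inv_inv, MulAut.smul_def, MulAut.conj_apply]
  rw [this]

theorem pISO : StISO := by
  intro G H _ _ _ _ ⟨e⟩ hG ι _ p hp hinj hstar
  have hstar' : ∀ i, StarAt G (p i) := by
    intro i
    haveI : Fact (p i).Prime := ⟨hp i⟩
    obtain ⟨P, Q, hPQ⟩ := hstar i
    refine ⟨pull e (p i) P, pull e (p i) Q, ?_⟩
    intro x hx
    rw [mem_iInf_iff e]
    apply hPQ
    rw [Subgroup.mem_inf] at hx ⊢
    rw [mem_pull, mem_pull] at hx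
    exact hx
  intro P
  obtain ⟨x, hx⟩ := hG ι p hp hinj hstar' (fun i => by
    haveI : Fact (p i).Prime := ⟨hp i⟩
    exact pull e (p i) (P i))
  refine ⟨e x, fun i => ?_⟩
  haveI : Fact (p i).Prime := ⟨hp i⟩
  ext y
  have h1 := hx i
  have h2 : e.symm y ∈ ((pull e (p i) (P i) : Subgroup G) ⊓
      MulAut.conj x⁻¹ • (pull e (p i) (P i) : Subgroup G)) ↔
      e.symm y ∈ (⨅ Q : Sylow (p i) G, (Q : Subgroup G)) := by
    rw [h1]
  rw [Subgroup.mem_inf, mem_conj, mem_pull, mem_pull, mem_iInf_iff e] at h2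
  simp only [map_mul, map_inv, MulEquiv.apply_symm_apply] at h2
  rw [Subgroup.mem_inf, mem_conj]
  exact h2

end Pool.Agent.Helper64.SA
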